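import Pool.Agent.helper21.UB.Spec

set_option autoImplicit false

open Quaternion

namespace Pool.Agent.helper21.UB

theorem DQ_loglog (n : ℕ) (hn : 16 ≤ n) : 1 ≤ Real.log (Real.log (n : ℝ)) := by
  have hn' : (16 : ℝ) ≤ n := by exact_mod_cast hn
  have h1 : Real.exp 1 ≤ Real.log (n : ℝ) := by
    have h2 : Real.log 16 ≤ Real.log (n : ℝ) := Real.log_le_log (by norm_num) hn'
    have h3 : Real.log 16 = 4 * Real.log 2 := by
      rw [show (16 : ℝ) = 2 ^ 4 by norm_num, Real.log_pow]; norm_num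
    have h4 := Real.log_two_gt_d9
    have h5 := Real.exp_one_lt_d9
    linarith
  calc (1 : ℝ) = Real.log (Real.exp 1) := (Real.log_exp 1).symm
    _ ≤ _ := Real.log_le_log (Real.exp_pos 1) h1

/-- the scaled point -/
noncomputable def DQ_f (k : ℕ) (x : Fin 3 → ℤ) : EuclideanSpace ℝ (Fin 3) :=
  WithLp.toLp 2 (fun i => (x i : ℝ) / Real.sqrt k)

theorem DQ_f_inj (k : ℕ) (hk : 0 < k) : Function.Injective (DQ_f k) := by
  intro x y h
  have hs : (0 : ℝ) < Real.sqrt k := Real.sqrt_pos.mpr (by exact_mod_cast hk)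
  funext i
  have h1 : (DQ_f k x) i = (DQ_f k y) i := by rw [h]
  unfold DQ_f at h1
  simp only at h1
  have h2 : (x i : ℝ) = y i := by
    field_simp at h1
    exact h1
  exact_mod_cast h2

theorem DQ_dist (k : ℕ) (hk : 0 < k) (x y : Fin 3 → ℤ) (h : ∑ i, (x i - y i) ^ 2 = (k : ℤ)) :
    dist (DQ_f k x) (DQ_f k y) = 1 := by
  have hk' : (0 : ℝ) < k := by exact_mod_cast hk
  have hs : (0 : ℝ) < Real.sqrt k := Real.sqrt_pos.mpr hk'
  have hR : ∑ i, ((x i : ℝ) - y i) ^ 2 = (k : ℝ) := by exact_mod_cast h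
  rw [EuclideanSpace.dist_eq]
  have h1 : ∑ i, dist ((DQ_f k x) i) ((DQ_f k y) i) ^ 2 = 1 := by
    have h2 : ∀ i, dist ((DQ_f k x) i) ((DQ_f k y) i) ^ 2 = ((x i : ℝ) - y i) ^ 2 / k := by
      intro i
      unfold DQ_f
      rw [Real.dist_eq, sq_abs]
      simp only
      rw [← sub_div, div_pow, Real.sq_sqrt hk'.le]
    rw [Finset.sum_congr rfl fun i _ => h2 i, ← Finset.sum_div, hR, div_self hk'.ne']
  rw [h1, Real.sqrt_one]

theorem DQ : DQ_stmt := by
  rintro ⟨C, N, hQ⟩ K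
  refine ⟨max C 1, max N 16, ?_⟩
  intro S b L k _ _ hN
  have hN1 : N ≤ S.card := le_trans (le_max_left _ _) hN
  have hN2 : 16 ≤ S.card := le_trans (le_max_right _ _) hN
  have hll := DQ_loglog S.card hN2
  have hn1 : (1 : ℝ) ≤ S.card := by exact_mod_cast (by omega : 1 ≤ S.card)
  have hpow0 : (0 : ℝ) ≤ (S.card : ℝ) ^ ((4 : ℝ) / 3) := Real.rpow_nonneg (by linarith) _
  rcases Nat.eq_zero_or_pos k with hk | hk
  · subst hk
    have hsub : ((S ×ˢ S).filter (fun p => ∑ i, (p.1 i - p.2 i) ^ 2 = ((0 : ℕ) : ℤ))) ⊆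
        S.image (fun x => (x, x)) := by
      intro p hp
      rw [Finset.mem_filter, Finset.mem_product] at hp
      rw [Finset.mem_image]
      refine ⟨p.1, hp.1.1, ?_⟩
      have h0 : ∑ i, (p.1 i - p.2 i) ^ 2 = 0 := by simpa using hp.2
      have h1 : ∀ i, p.1 i = p.2 i := by
        intro i
        have := (Finset.sum_eq_zero_iff_of_nonneg (fun i _ => sq_nonneg (p.1 i - p.2 i))).mp h0 i
          (Finset.mem_univ i)
        have h2 : p.1 i - p.2 i = 0 := by
          exact pow_eq_zero_iff (two_ne_zero) |>.mp this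
        omega
      exact Prod.ext rfl (funext h1)
    have hc : (((S ×ˢ S).filter (fun p => ∑ i, (p.1 i - p.2 i) ^ 2 = ((0 : ℕ) : ℤ))).card : ℝ) ≤
        S.card := by
      exact_mod_cast le_trans (Finset.card_le_card hsub) Finset.card_image_le
    refine le_trans hc ?_
    have h43 : (S.card : ℝ) ≤ (S.card : ℝ) ^ ((4 : ℝ) / 3) := by
      calc (S.card : ℝ) = (S.card : ℝ) ^ (1 : ℝ) := (Real.rpow_one _).symm
        _ ≤ _ := Real.rpow_le_rpow_of_exponent_le hn1 (by norm_num)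
    have hC1 : (1 : ℝ) ≤ max C 1 := le_max_right _ _
    calc (S.card : ℝ) ≤ (S.card : ℝ) ^ ((4 : ℝ) / 3) := h43
      _ ≤ max C 1 * (S.card : ℝ) ^ ((4 : ℝ) / 3) := le_mul_of_one_le_left hpow0 hC1
      _ ≤ max C 1 * (S.card : ℝ) ^ ((4 : ℝ) / 3) * Real.log (Real.log (S.card : ℝ)) :=
          le_mul_of_one_le_right (mul_nonneg (by linarith) hpow0) hll
  · classical
    have hcard : (S.image (DQ_f k)).card = S.card := Finset.card_image_of_injective _ (DQ_f_inj k hk)
    have hq := hQ S.card hN1 (S.image (DQ_f k)) hcard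
    have hle : ((S ×ˢ S).filter (fun p => ∑ i, (p.1 i - p.2 i) ^ 2 = (k : ℤ))).card ≤
        ((S.image (DQ_f k) ×ˢ S.image (DQ_f k)).filter (fun p => dist p.1 p.2 = 1)).card := by
      apply Finset.card_le_card_of_injOn (fun p => (DQ_f k p.1, DQ_f k p.2))
      · intro p hp
        have hp' := Finset.mem_filter.mp hp
        rw [Finset.mem_product] at hp'
        apply Finset.mem_filter.mpr
        rw [Finset.mem_product]
        exact ⟨⟨Finset.mem_image_of_mem _ hp'.1.1, Finset.mem_image_of_mem _ hp'.1.2⟩,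
          DQ_dist k hk p.1 p.2 hp'.2⟩
      · intro p _ p' _ h
        have h1 := congrArg Prod.fst h
        have h2 := congrArg Prod.snd h
        exact Prod.ext (DQ_f_inj k hk h1) (DQ_f_inj k hk h2)
    have hle' : (((S ×ˢ S).filter (fun p => ∑ i, (p.1 i - p.2 i) ^ 2 = (k : ℤ))).card : ℝ) ≤
        (((S.image (DQ_f k) ×ˢ S.image (DQ_f k)).filter (fun p => dist p.1 p.2 = 1)).card : ℝ) := by
      exact_mod_cast hle
    refine le_trans hle' (le_trans hq ?_)
    apply mul_le_mul_of_nonneg_right _ (by linarith)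
    exact mul_le_mul_of_nonneg_right (le_max_left _ _) hpow0

end Pool.Agent.helper21.UB
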